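import Pool.Agent.H413.G.R_seed8.H494R3.NK.Stmts

set_option autoImplicit false

/-!
The property `Toep` is invariant under isomorphism.
-/

namespace Pool.Agent.H494R3.NK

universe u v

theorem Toep.of_equiv {M : Type u} [AddCommMonoid M] {N : Type v} [AddCommMonoid N] (e : M ≃+ N)
    (h : Toep M) : Toep N := by
  obtain ⟨a, w, h1, h2, h3, h4, h5, h6⟩ := h
  refine ⟨e a, e w, ?_, ?_, ?_, ?_, ?_, ?_⟩
  · intro h
    exact h1 (e.injective (by rw [h, map_zero]))
  · intro x y hxy
    have : e.symm x + e.symm y = a := by rw [← map_add, hxy, e.symm_apply_apply]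
    rcases h2 _ _ this with h | h
    · left
      exact e.symm.injective (by rw [h, map_zero])
    · right
      exact e.symm.injective (by rw [h, map_zero])
  · rw [← map_add, h3]
  · intro x y hxy
    have : e.symm x + e.symm y = w := by rw [← map_add, hxy, e.symm_apply_apply]
    rcases h4 _ _ this with ⟨m, h⟩ | ⟨m, h⟩
    · left
      exact ⟨m, by rw [← map_nsmul, ← h, e.apply_symm_apply]⟩
    · right
      exact ⟨m, by rw [← map_nsmul, ← h, e.apply_symm_apply]⟩
  · intro x
    rcases h5 (e.symm x) with ⟨m, h⟩ | ⟨y, h⟩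
    · left
      exact ⟨m, by rw [← map_nsmul, ← h, e.apply_symm_apply]⟩
    · right
      exact ⟨e y, by rw [← map_add, ← h, e.apply_symm_apply]⟩
  · intro m x h
    apply h6 m (e.symm x)
    apply e.injective
    rw [map_add, e.apply_symm_apply, h, map_nsmul]

end Pool.Agent.H494R3.NK
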