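import Pool.Agent.H413.G.R_seed8.H494R3.NK.Defs

set_option autoImplicit false

/-!
Statements of the steps: a regular ring whose monoid `V` is not that of a C*-algebra of real rank
zero.
-/

namespace Pool.Agent.H494R3.NK

universe u

section gen
variable {R : Type u} [NonUnitalRing R]

/-- the matrix of size one with entry `p` -/
def s1 (p : R) : Matrix (Fin 1) (Fin 1) R := fun _ _ => p

theorem s1_idem {p : R} (h : p * p = p) : s1 p * s1 p = s1 p := by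
  ext i j
  rw [Matrix.mul_apply]
  simp [s1, h]

/-- the class in `V(R)` of an idempotent of `R` -/
def cl {p : R} (h : p * p = p) : VV R := VV.mk ⟨1, s1 p, s1_idem h⟩

/-- the class in `V(R)` of an idempotent matrix -/
def cm {n : ℕ} {e : Matrix (Fin n) (Fin n) R} (h : e * e = e) : VV R := VV.mk ⟨n, e, h⟩

/-- the two-sided ideal of all finite sums of elements `x r y` -/
def Ir (r : R) : Set R := {z | ∃ (m : ℕ) (x y : Fin m → R), z = ∑ i, x i * r * y i}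

end gen

/-- the property of a monoid that distinguishes the two classes -/
def Toep (M : Type u) [AddCommMonoid M] : Prop :=
  ∃ a v : M, a ≠ 0 ∧ (∀ x y, x + y = a → x = 0 ∨ y = 0) ∧ v + a = v ∧
    (∀ x y, x + y = v → (∃ m : ℕ, x = m • a) ∨ ∃ m : ℕ, y = m • a) ∧
    (∀ w, (∃ m : ℕ, w = m • a) ∨ ∃ x, w = v + x) ∧ ∀ (m : ℕ) (x : M), v + x ≠ m • a

/-! ### general facts about `V(R)` -/

def TaskEq : Prop := ∀ (R : Type u) [NonUnitalRing R] (p q : R) (hp : p * p = p) (hq : q * q = q),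
  cl hp = cl hq ↔ ∃ s t : R, s * t = p ∧ t * s = q ∧ p * s = s ∧ s * q = s ∧ q * t = t ∧ t * p = t

def TaskSplit : Prop := ∀ (R : Type u) [NonUnitalRing R] (p : R) (hp : p * p = p) (x y : VV R),
  cl hp = x + y → ∃ (e f : R) (he : e * e = e) (hf : f * f = f),
    e + f = p ∧ e * f = 0 ∧ f * e = 0 ∧ cl he = x ∧ cl hf = y

def TaskSum : Prop := ∀ (R : Type u) [NonUnitalRing R] (e f : R) (he : e * e = e)
  (hf : f * f = f) (hef : (e + f) * (e + f) = e + f), e * f = 0 → f * e = 0 →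
    cl hef = cl he + cl hf

def TaskZero : Prop := ∀ (R : Type u) [NonUnitalRing R] (p : R) (hp : p * p = p),
  cl hp = 0 ↔ p = 0

def TaskMem : Prop := ∀ (R : Type u) [NonUnitalRing R] (r p : R) (hr : r * r = r)
  (hp : p * p = p) (z : VV R) (m : ℕ), cl hp + z = m • cl hr → p ∈ Ir r

def TaskDom : Prop := ∀ (R : Type u) [NonUnitalRing R] (r : R) (hr : r * r = r) (n m : ℕ)
  (e : Matrix (Fin n) (Fin n) R) (he : e * e = e) (X : Matrix (Fin n) (Fin m) R)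
  (Y : Matrix (Fin m) (Fin n) R), e = (X * (Matrix.diagonal (fun _ => r) : Matrix (Fin m) (Fin m) R) : Matrix (Fin n) (Fin m) R) * Y →
    ∃ z : VV R, cm he + z = m • cl hr

/-! ### C*-algebras -/

def TaskProj : Prop := ∀ (A : Type u) [NonUnitalCStarAlgebra A] (e : A), e * e = e →
  ∃ p : A, p * p = p ∧ star p = p ∧ p * e = e ∧ e * p = p

def TaskDense : Prop := ∀ (A : Type u) [NonUnitalCStarAlgebra A], RealRankZero A →
  ∀ (x : A) (ε : ℝ), 0 < ε → ∃ (n : ℕ) (f : Fin n → A) (c : Fin n → ℂ),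
    (∀ i, f i * f i = f i ∧ star (f i) = f i) ∧ ‖x - ∑ i, c i • f i‖ < ε

def TaskMat : Prop := ∀ (A : Type u) [NonUnitalCStarAlgebra A] (r : A) (hr : r * r = r) (n : ℕ)
  (e : Matrix (Fin n) (Fin n) A) (he : e * e = e), (∀ i j, e i j ∈ closure (Ir r)) →
    ∃ (z : VV A) (m : ℕ), cm he + z = m • cl hr

def TaskSpectral : Prop := ∀ (U : Type u) [CStarAlgebra U] (h : U) (N : ℝ), 0 < N →
  IsSelfAdjoint h → (spectrum ℝ h).Finite → (∀ t ∈ spectrum ℝ h, -N ≤ t) →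
  ∃ (S : Finset ℝ) (g : ℝ → U), (∀ μ ∈ S, N ≤ μ ∧ μ ≤ ‖h‖) ∧
    (∀ μ ∈ S, g μ * g μ = g μ ∧ star (g μ) = g μ) ∧
    (∀ μ ∈ S, ∀ ν ∈ S, μ ≠ ν → g μ * g ν = 0) ∧
    h * (∑ μ ∈ S, g μ) = ∑ μ ∈ S, μ • g μ ∧ (∑ μ ∈ S, g μ) * h = h * ∑ μ ∈ S, g μ ∧
    ‖h * (1 - ∑ μ ∈ S, g μ)‖ ≤ N ∧ ∃ w : U, w * (h * ∑ μ ∈ S, g μ) = ∑ μ ∈ S, g μ ∧ ‖w‖ ≤ 1 / N

def TaskClose : Prop := ∀ (U : Type u) [CStarAlgebra U] (p x h : U) (N δ : ℝ), 0 < N → 0 < δ →
  δ ≤ N → p * p = p → star p = p → p * x = x → x * p = x → star x = x → ‖x‖ ≤ N →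
  IsSelfAdjoint h → (spectrum ℝ h).Finite → ‖x + (3 * N) • p - h‖ ≤ δ →
  ∃ (S : Finset ℝ) (g : ℝ → U), (∀ μ ∈ S, N ≤ μ ∧ μ ≤ 5 * N) ∧
    (∀ μ ∈ S, g μ * g μ = g μ ∧ star (g μ) = g μ) ∧
    (∀ μ ∈ S, ∀ ν ∈ S, μ ≠ ν → g μ * g ν = 0) ∧
    ‖p - ∑ μ ∈ S, g μ‖ ≤ 2 * δ / N ∧
    ‖x + (3 * N) • p - (∑ μ ∈ S, μ • g μ) * p‖ ≤ 2 * δ

def TaskCornerSelf : Prop := ∀ (A : Type u) [NonUnitalCStarAlgebra A], RealRankZero A →
  ∀ r p : A, r * r = r → p * p = p → star p = p → p ∉ Ir r →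
  (∀ f : A, f * f = f → p * f = f → f * p = f → f ∈ Ir r ∨ p - f ∈ Ir r) →
  ∀ x : A, star x = x → p * x = x → x * p = x → ∀ ε : ℝ, 0 < ε →
    ∃ (c : ℂ) (k : A), k ∈ Ir r ∧ p * k = k ∧ k * p = k ∧ ‖x - (c • p + k)‖ < ε

def TaskFred : Prop := ∀ (A : Type u) [NonUnitalCStarAlgebra A] (r p k t : A) (c : ℂ),
  r * r = r → p * p = p → (∀ x : A, ∃ d : ℂ, r * x * r = d • r) → c ≠ 0 → k ∈ Ir r →
  p * k = k → k * p = k → t * (c • p + k) = p → ∃ g : A, p * g = g ∧ (c • p + k) * g = p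

def TaskIndex : Prop := ∀ (A : Type u) [NonUnitalCStarAlgebra A] (r p s t : A),
  r * r = r → p * p = p → (∀ x : A, ∃ d : ℂ, r * x * r = d • r) → p ∉ Ir r →
  p * s = s → s * p = s → p * t = t → t * p = t → t * s = p →
  (∀ ε : ℝ, 0 < ε → ∃ (c : ℂ) (k : A), k ∈ Ir r ∧ p * k = k ∧ k * p = k ∧
    ‖s - (c • p + k)‖ < ε) → s * t = p

def TaskCStar : Prop := ∀ (A : Type u) [NonUnitalCStarAlgebra A], RealRankZero A → ¬ Toep (VV A)

/-! ### the regular ring -/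

open PowerSeries in
/-- The ring of all `ℚ`-linear endomorphisms of the power series ring `ℚ⟦X⟧` which are
`ℚ⟦X⟧`-linear on the ideal generated by some power `X ^ N`. -/
noncomputable def R0 : Subring (Module.End ℚ (PowerSeries ℚ)) where
  carrier := {x | ∃ N : ℕ, ∀ h : PowerSeries ℚ, x (h * X ^ N) = h * x (X ^ N)}
  mul_mem' := by
    rintro x y ⟨N, hx⟩ ⟨M, hy⟩
    refine ⟨N + M, fun h => ?_⟩
    show x (y (h * X ^ (N + M))) = h * x (y (X ^ (N + M)))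
    have h1 : ∀ h : PowerSeries ℚ, y (h * X ^ (N + M)) = (h * y (X ^ M)) * X ^ N := fun h => by
      rw [pow_add, ← mul_assoc, hy]; ring
    have h2 : y (X ^ (N + M)) = y (X ^ M) * X ^ N := by
      have := h1 1
      simpa using this
    rw [h1, hx, h2, hx]; ring
  one_mem' := ⟨0, fun h => by simp⟩
  add_mem' := by
    rintro x y ⟨N, hx⟩ ⟨M, hy⟩
    refine ⟨N + M, fun h => ?_⟩
    have h1 : ∀ h : PowerSeries ℚ, x (h * X ^ (N + M)) = h * x (X ^ (N + M)) := fun h => by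
      have e1 : h * X ^ (N + M) = (h * X ^ M) * X ^ N := by ring
      have e2 : (X : PowerSeries ℚ) ^ (N + M) = X ^ M * X ^ N := by ring
      rw [e1, hx, e2, hx]; ring
    have h2 : ∀ h : PowerSeries ℚ, y (h * X ^ (N + M)) = h * y (X ^ (N + M)) := fun h => by
      have e1 : h * X ^ (N + M) = (h * X ^ N) * X ^ M := by ring
      have e2 : (X : PowerSeries ℚ) ^ (N + M) = X ^ N * X ^ M := by ring
      rw [e1, hy, e2, hy]; ring
    rw [LinearMap.add_apply, LinearMap.add_apply, h1, h2, mul_add]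
  zero_mem' := ⟨0, fun h => by simp⟩
  neg_mem' := by
    rintro x ⟨N, hx⟩
    exact ⟨N, fun h => by rw [LinearMap.neg_apply, LinearMap.neg_apply, hx]; ring⟩

open PowerSeries in
/-- the elements of `R0` vanishing on the ideal generated by some `X ^ N` -/
def I0 (x : R0) : Prop := ∃ N : ℕ, ∀ h : PowerSeries ℚ, x.1 (h * X ^ N) = 0

open PowerSeries in
/-- the projection onto the constants -/
noncomputable def r0 : R0 :=
  ⟨{ toFun := fun g => C (constantCoeff g)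
     map_add' := fun g h => by simp
     map_smul' := fun c g => by
      ext n
      cases n <;> simp [coeff_C] },
   1, fun h => by simp⟩

theorem r0_idem : r0 * r0 = r0 := by
  apply Subtype.ext
  apply LinearMap.ext
  intro g
  show PowerSeries.C (PowerSeries.constantCoeff (PowerSeries.C (PowerSeries.constantCoeff g))) =
    PowerSeries.C (PowerSeries.constantCoeff g)
  simp

def TaskReg : Prop := ∀ x : R0, ∃ y : R0, x * y * x = x

def TaskUnitIdeal : Prop := ∀ x : R0, ¬ I0 x → ∃ α β : R0, α * x * β = 1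

def TaskFin : Prop := ∀ (n : ℕ) (e : Matrix (Fin n) (Fin n) R0) (he : e * e = e),
  (∀ i j, I0 (e i j)) → ∃ m : ℕ, cm he = m • cl r0_idem

def TaskDomain : Prop := ∀ x y : R0, x * y = 0 → I0 x ∨ I0 y

def TaskAtom : Prop := ∀ e f : R0, e * e = e → f * f = f → e * f = 0 → f * e = 0 → e + f = r0 →
  e = 0 ∨ f = 0

def TaskShift : Prop := ∃ s t : R0, t * s = 1 ∧ s * t + r0 = 1

def TaskRing : Prop := Toep (VV R0)

end Pool.Agent.H494R3.NK
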