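import Pool.Agent.H413.G.R_seed8.H494R3.NK.Stmts

set_option autoImplicit false

/-!
Assembly: the regular ring `R0` has the property `Toep`.
-/

namespace Pool.Agent.H494R3.NK

universe u

section
variable {R : Type u} [NonUnitalRing R]

theorem cm_add {n : ℕ} {e f : Matrix (Fin n) (Fin n) R} (he : e * e = e) (hf : f * f = f)
    (hef : e * f = 0) (hfe : f * e = 0) (h : (e + f) * (e + f) = e + f) :
    cm h = cm he + cm hf := by
  apply VV.mk_eq.2
  show Eqv (e + f) (blk e f)
  refine Eqv.trans h (blk_idem he hf) (f := Matrix.fromBlocks e 0 0 f) ?_ (Eqv.blk he hf)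
  refine ⟨Matrix.fromCols e f, Matrix.fromRows e f, ?_, ?_⟩
  · rw [colrow, he, hf]
  · rw [rowcol, he, hf, hef, hfe]

theorem I0.mono {x : R0} {N M : ℕ} (h : ∀ g : PowerSeries ℚ, x.1 (g * PowerSeries.X ^ N) = 0)
    (hNM : N ≤ M) (g : PowerSeries ℚ) : x.1 (g * PowerSeries.X ^ M) = 0 := by
  obtain ⟨d, rfl⟩ := Nat.exists_eq_add_of_le hNM
  have := h (g * PowerSeries.X ^ d)
  rwa [mul_assoc, ← pow_add, add_comm d N] at this

theorem I0.add {x y : R0} (hx : I0 x) (hy : I0 y) : I0 (x + y) := by
  obtain ⟨N, hx⟩ := hx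
  obtain ⟨M, hy⟩ := hy
  refine ⟨max N M, fun g => ?_⟩
  show x.1 _ + y.1 _ = 0
  rw [I0.mono hx (le_max_left _ _), I0.mono hy (le_max_right _ _), add_zero]

theorem I0.sum {n : ℕ} (x : Fin n → R0) (h : ∀ i, I0 (x i)) : I0 (∑ i, x i) := by
  classical
  induction (Finset.univ : Finset (Fin n)) using Finset.induction_on with
  | empty =>
    rw [Finset.sum_empty]
    exact ⟨0, fun g => rfl⟩
  | insert a s ha ih =>
    rw [Finset.sum_insert ha]
    exact (h a).add ih

theorem I0.r0 (x y : R0) : I0 (x * NK.r0 * y) := by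
  obtain ⟨N, hy⟩ := y.2
  refine ⟨N + 1, fun g => ?_⟩
  show x.1 (PowerSeries.C (PowerSeries.constantCoeff (y.1 (g * PowerSeries.X ^ (N + 1))))) = 0
  have h1 : g * PowerSeries.X ^ (N + 1) = (g * PowerSeries.X) * PowerSeries.X ^ N := by ring
  rw [h1, hy]
  simp

theorem I0.not_one : ¬ I0 1 := by
  rintro ⟨N, h⟩
  have h1 := h 1
  rw [one_mul] at h1
  have h2 : (PowerSeries.X : PowerSeries ℚ) ^ N = 0 := h1
  exact pow_ne_zero N PowerSeries.X_ne_zero h2

end

theorem ringAsm (hEq : TaskEq.{0}) (hSplit : TaskSplit.{0}) (hZero : TaskZero.{0})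
    (hMem : TaskMem.{0}) (hUnit : TaskUnitIdeal) (hFin : TaskFin) (hDom : TaskDomain)
    (hAtom : TaskAtom) (hShift : TaskShift) : TaskRing := by
  have h1 : (1 : R0) * 1 = 1 := one_mul 1
  have cmcl : ∀ {p : R0} (hp : p * p = p), cl hp = cm (s1_idem hp) := fun _ => rfl
  refine ⟨cl r0_idem, cl h1, ?_, ?_, ?_, ?_, ?_, ?_⟩
  · intro h
    rw [hZero] at h
    have h2 : (r0.1 : Module.End ℚ (PowerSeries ℚ)) 1 = 0 := by rw [h]; rfl
    have h3 : PowerSeries.C (PowerSeries.constantCoeff (1 : PowerSeries ℚ)) = 0 := h2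
    simp at h3
  · intro x y hxy
    obtain ⟨e, f, he, hf, hef, h2, h3, h4, h5⟩ := hSplit _ _ r0_idem x y hxy.symm
    rcases hAtom e f he hf h2 h3 hef with h | h
    · left; rw [← h4, hZero]; exact h
    · right; rw [← h5, hZero]; exact h
  · obtain ⟨s, t, hts, hst⟩ := hShift
    have he : (s * t) * (s * t) = s * t := by
      rw [mul_assoc, ← mul_assoc t s t, hts, one_mul]
    have h2 : cl he = cl h1 := by
      rw [hEq]
      refine ⟨s, t, rfl, hts, ?_, mul_one s, one_mul t, ?_⟩
      · rw [mul_assoc, hts, mul_one]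
      · rw [← mul_assoc, hts, one_mul]
    have h3 : r0 = 1 - s * t := by rw [← hst]; abel
    have h4 : (s * t) * r0 = 0 := by rw [h3, mul_sub, mul_one, he, sub_self]
    have h5 : r0 * (s * t) = 0 := by rw [h3, sub_mul, one_mul, he, sub_self]
    have h6 : s1 (s * t) * s1 r0 = 0 := by
      apply Matrix.ext; intro i j
      rw [Matrix.mul_apply]
      simp [s1, h4]
    have h7 : s1 r0 * s1 (s * t) = 0 := by
      apply Matrix.ext; intro i j
      rw [Matrix.mul_apply]
      simp [s1, h5]
    have h8 : s1 (s * t) + s1 r0 = s1 1 := by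
      apply Matrix.ext; intro i j
      show s * t + r0 = 1
      exact hst
    have h9 : (s1 (s * t) + s1 r0) * (s1 (s * t) + s1 r0) = s1 (s * t) + s1 r0 := by
      rw [h8]; exact s1_idem h1
    have h10 := cm_add (s1_idem he) (s1_idem r0_idem) h6 h7 h9
    have h11 : cm h9 = cl h1 := by
      apply VV.mk_eq.2
      show Eqv (s1 (s * t) + s1 r0) (s1 1)
      rw [h8]
      exact Eqv.refl (s1_idem h1)
    have h12 : cl he + cl r0_idem = cl h1 := h10.symm.trans h11
    rwa [h2] at h12
  · intro x y hxy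
    obtain ⟨e, f, he, hf, hef, h2, h3, h4, h5⟩ := hSplit _ _ h1 x y hxy.symm
    rcases hDom e f h2 with h | h
    · left
      obtain ⟨m, hm⟩ := hFin 1 (s1 e) (s1_idem he) (fun _ _ => h)
      exact ⟨m, by rw [← h4, cmcl, hm]⟩
    · right
      obtain ⟨m, hm⟩ := hFin 1 (s1 f) (s1_idem hf) (fun _ _ => h)
      exact ⟨m, by rw [← h5, cmcl, hm]⟩
  · intro w
    obtain ⟨⟨n, e, he⟩, rfl⟩ : ∃ g : Idem R0, w = VV.mk g := by
      obtain ⟨g, hg⟩ := Quotient.exists_rep w
      exact ⟨g, hg.symm⟩
    by_cases hI : ∀ i j, I0 (e i j)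
    · left
      exact hFin n e he hI
    · right
      push Not at hI
      obtain ⟨i, j, hij⟩ := hI
      obtain ⟨α, β, hαβ⟩ := hUnit _ hij
      obtain ⟨X, hX⟩ : ∃ X : Matrix (Fin 1) (Fin n) R0, X = fun _ k => α * e i k := ⟨_, rfl⟩
      obtain ⟨Y, hY⟩ : ∃ Y : Matrix (Fin n) (Fin 1) R0, Y = fun k _ => e k j * β := ⟨_, rfl⟩
      have hee : ∀ i j, ∑ k, e i k * e k j = e i j := fun i j => by
        rw [← Matrix.mul_apply, he]
      have hXY : X * Y = s1 1 := by
        apply Matrix.ext; intro a b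
        rw [Matrix.mul_apply, hX, hY]
        show ∑ k, α * e i k * (e k j * β) = 1
        rw [← hαβ, ← hee i j, Finset.mul_sum, Finset.sum_mul]
        refine Finset.sum_congr rfl fun k _ => ?_
        simp only [mul_assoc]
      have hXe : X * e = X := by
        apply Matrix.ext; intro a b
        rw [Matrix.mul_apply, hX]
        show ∑ k, α * e i k * e k b = α * e i b
        rw [← hee i b, Finset.mul_sum]
        refine Finset.sum_congr rfl fun k _ => ?_
        rw [mul_assoc]
      have heY : e * Y = Y := by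
        apply Matrix.ext; intro a b
        rw [Matrix.mul_apply, hY]
        show ∑ k, e a k * (e k j * β) = e a j * β
        rw [← hee a j, Finset.sum_mul]
        refine Finset.sum_congr rfl fun k _ => ?_
        rw [mul_assoc]
      have hX1 : s1 (1 : R0) * X = X := by
        apply Matrix.ext; intro a b
        rw [Matrix.mul_apply]
        simp only [s1, one_mul, Finset.univ_unique, Finset.sum_singleton]
        rw [Subsingleton.elim a default]
      obtain ⟨g, hg⟩ : ∃ g : Matrix (Fin n) (Fin n) R0, g = Y * X := ⟨_, rfl⟩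
      have hgg : g * g = g := by
        rw [hg, Matrix.mul_assoc, ← Matrix.mul_assoc X Y X, hXY, hX1]
      have heg : e * g = g := by rw [hg, ← Matrix.mul_assoc, heY]
      have hge : g * e = g := by rw [hg, Matrix.mul_assoc, hXe]
      have hd : (e - g) * (e - g) = e - g := by
        rw [sub_mul, mul_sub, mul_sub, he, heg, hge, hgg]; abel
      have o1 : g * (e - g) = 0 := by rw [mul_sub, hge, hgg, sub_self]
      have o2 : (e - g) * g = 0 := by rw [sub_mul, heg, hgg, sub_self]
      have hsum : (g + (e - g)) * (g + (e - g)) = g + (e - g) := by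
        have : g + (e - g) = e := by abel
        rw [this, he]
      have h10 := cm_add hgg hd o1 o2 hsum
      refine ⟨cm hd, ?_⟩
      have h11 : cm hsum = cm he := by
        apply VV.mk_eq.2
        show Eqv (g + (e - g)) e
        have : g + (e - g) = e := by abel
        rw [this]
        exact Eqv.refl he
      have h12 : cm hgg = cl h1 := by
        apply VV.mk_eq.2
        show Eqv g (s1 1)
        exact ⟨Y, X, hg.symm, hXY⟩
      show cm he = cl h1 + cm hd
      rw [← h11, h10, h12]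
  · intro m x h
    obtain ⟨k, X, Y, hXY⟩ := hMem R0 r0 1 r0_idem h1 x m h
    apply I0.not_one
    rw [hXY]
    exact I0.sum _ fun i => I0.r0 _ _

end Pool.Agent.H494R3.NK
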